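import Pool.Agent.V11297.Pqr2b

/-!
# `B(5 * 7 * 13 ^ 2) = 12822` is not divisible by `5`

The largest height of a divisor of `X ^ (5 * 7 * 13 ^ 2) - 1` in `ℤ[X]` is `12822`, which is not a
multiple of `5`.
-/

open Polynomial

namespace Pool.Agent.Results.MP_68ef1b_nt.NotDivisible

open Pool.Agent.V11297 Pool.Agent.V11297.LP

lemma pp_decide (P : Prop) [Decidable P] (f : ℤ[X]) : pp (decide P) f = if P then f else 1 := by
  by_cases h : P <;> simp [pp, h]

lemma expand_pp (P : Prop) [Decidable P] {f g : ℤ[X]} (h : expand ℤ 13 f = g) :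
    expand ℤ 13 (pp (decide P) f) = if P then g else 1 := by
  by_cases hP : P <;> simp [pp, hP, h]

set_option maxRecDepth 100000 in
lemma divs : (5915 : ℕ).divisors = {1, 5, 7, 35, 13, 65, 91, 455, 169, 845, 1183, 5915} := by
  decide +kernel

lemma prod_form (S : Finset ℕ) (hS : S ⊆ (5915 : ℕ).divisors) :
    ∏ d ∈ S, cyclotomic d ℤ =
      FP (decide (1 ∈ S)) (decide (5 ∈ S)) (decide (7 ∈ S)) (decide (35 ∈ S)) (decide (13 ∈ S))
        (decide (65 ∈ S)) (decide (91 ∈ S)) (decide (455 ∈ S)) *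
      expand ℤ 13 (QP (decide (169 ∈ S)) (decide (845 ∈ S)) (decide (1183 ∈ S))
        (decide (5915 ∈ S))) := by
  have h1 : ∏ d ∈ S, cyclotomic d ℤ
      = ∏ d ∈ (5915 : ℕ).divisors, (if d ∈ S then cyclotomic d ℤ else 1) := by
    rw [Finset.prod_ite_mem, Finset.inter_eq_right.mpr hS]
  have e1 : expand ℤ 13 (ofL P13) = cyclotomic 169 ℤ := by
    rw [ofL_P13, cyclotomic_expand_eq_cyclotomic (by norm_num) (by norm_num)]
  have e2 : expand ℤ 13 (ofL P65) = cyclotomic 845 ℤ := by
    rw [ofL_P65, cyclotomic_expand_eq_cyclotomic (by norm_num) (by norm_num)]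
  have e3 : expand ℤ 13 (ofL P91) = cyclotomic 1183 ℤ := by
    rw [ofL_P91, cyclotomic_expand_eq_cyclotomic (by norm_num) (by norm_num)]
  have e4 : expand ℤ 13 (ofL P455) = cyclotomic 5915 ℤ := by
    rw [ofL_P455, cyclotomic_expand_eq_cyclotomic (by norm_num) (by norm_num)]
  rw [h1, divs]
  unfold FP QP
  rw [map_mul, map_mul, map_mul, map_mul, map_one, expand_pp _ e1, expand_pp _ e2,
    expand_pp _ e3, expand_pp _ e4]
  simp only [pp_decide, ofL_P1, ofL_P5, ofL_P7, ofL_P35, ofL_P13, ofL_P65, ofL_P91, ofL_P455]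
  rw [Finset.prod_insert (by decide), Finset.prod_insert (by decide),
    Finset.prod_insert (by decide), Finset.prod_insert (by decide),
    Finset.prod_insert (by decide), Finset.prod_insert (by decide),
    Finset.prod_insert (by decide), Finset.prod_insert (by decide),
    Finset.prod_insert (by decide), Finset.prod_insert (by decide),
    Finset.prod_insert (by decide), Finset.prod_singleton]
  ring

lemma upper {f : ℤ[X]} (hf : f ∣ X ^ 5915 - 1) : height f ≤ 12822 := by
  obtain ⟨S, u, hu, hS, rfl⟩ := CycloPQ.divisor_form (by norm_num) hf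
  rw [height_le_iff]
  intro k
  rw [coeff_C_mul, abs_mul, hu, one_mul, prod_form S hS]
  exact upper_FQ _ _ _ _ _ _ _ _ _ _ _ _ k

/-- The set of the extremal product. -/
def S0 : Finset ℕ := {5, 7, 13, 455, 845, 1183}

lemma S0_subset : S0 ⊆ (5915 : ℕ).divisors := by
  rw [divs]
  decide

set_option maxRecDepth 100000 in
lemma coeff_check :
    (FQL false true true false true false false true false true true false).getD 597 0 = 12822 := by
  decide +kernel

lemma coeff_witness : (∏ d ∈ S0, cyclotomic d ℤ).coeff 597 = 12822 := by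
  rw [prod_form S0 S0_subset]
  have hb : QN false true true false * FN false true true false true false false true < 2 ^ 17 := by
    decide
  have h := ofL_FQL hb
  have e : FP (decide (1 ∈ S0)) (decide (5 ∈ S0)) (decide (7 ∈ S0)) (decide (35 ∈ S0))
        (decide (13 ∈ S0)) (decide (65 ∈ S0)) (decide (91 ∈ S0)) (decide (455 ∈ S0)) *
      expand ℤ 13 (QP (decide (169 ∈ S0)) (decide (845 ∈ S0)) (decide (1183 ∈ S0))
        (decide (5915 ∈ S0)))
      = FP false true true false true false false true *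
        expand ℤ 13 (QP false true true false) := by
    have t1 : decide (1 ∈ S0) = false := by decide
    have t2 : decide (5 ∈ S0) = true := by decide
    have t3 : decide (7 ∈ S0) = true := by decide
    have t4 : decide (35 ∈ S0) = false := by decide
    have t5 : decide (13 ∈ S0) = true := by decide
    have t6 : decide (65 ∈ S0) = false := by decide
    have t7 : decide (91 ∈ S0) = false := by decide
    have t8 : decide (455 ∈ S0) = true := by decide
    have t9 : decide (169 ∈ S0) = false := by decide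
    have t10 : decide (845 ∈ S0) = true := by decide
    have t11 : decide (1183 ∈ S0) = true := by decide
    have t12 : decide (5915 ∈ S0) = false := by decide
    rw [t1, t2, t3, t4, t5, t6, t7, t8, t9, t10, t11, t12]
  rw [e, ← h, coeff_ofL]
  exact coeff_check

lemma prod_dvd {n : ℕ} (hn : 0 < n) {S : Finset ℕ} (hS : S ⊆ n.divisors) :
    ∏ d ∈ S, cyclotomic d ℤ ∣ X ^ n - 1 := by
  rw [← prod_cyclotomic_eq_X_pow_sub_one hn ℤ]
  exact Finset.prod_dvd_prod_of_subset _ _ _ hS

lemma greatest_of {n M : ℕ} (hn : 0 < n) {S : Finset ℕ} (hS : S ⊆ n.divisors) {k : ℕ}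
    (hk : (∏ d ∈ S, cyclotomic d ℤ).coeff k = M)
    (hu : ∀ f : ℤ[X], f ∣ X ^ n - 1 → height f ≤ M) :
    IsGreatest {h : ℕ | ∃ f : ℤ[X], f ∣ X ^ n - 1 ∧ height f = h} M := by
  refine ⟨⟨_, prod_dvd hn hS, le_antisymm (hu _ (prod_dvd hn hS)) ?_⟩, ?_⟩
  · have h := abs_coeff_le_height (∏ d ∈ S, cyclotomic d ℤ) k
    rw [hk, abs_of_nonneg (Int.natCast_nonneg _)] at h
    exact_mod_cast h
  · rintro h ⟨f, hf, rfl⟩
    exact hu f hf

/-- The maximal height of a divisor of `X ^ (5 * 7 * 13 ^ 2) - 1` is `12822`. -/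
lemma isGreatest :
    IsGreatest {h : ℕ | ∃ f : ℤ[X], f ∣ X ^ (5 * 7 * 13 ^ 2) - 1 ∧ height f = h} 12822 := by
  have hn : 5 * 7 * 13 ^ 2 = 5915 := by norm_num
  rw [hn]
  exact greatest_of (by norm_num) S0_subset (k := 597) coeff_witness (fun f hf => upper hf)

/-- There are primes `p < q < r` and an exponent `b ≥ 2`, namely `5 < 7 < 13` and `2`, such that
the largest height of a divisor of `X ^ (p q r ^ b) - 1` in `ℤ[X]` is not divisible by `p`; the
value of that height is `12822`. -/
theorem result :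
    (∃ p q r b B : ℕ, p.Prime ∧ q.Prime ∧ r.Prime ∧ p < q ∧ q < r ∧ 2 ≤ b ∧
      IsGreatest {h : ℕ | ∃ f : ℤ[X], f ∣ X ^ (p * q * r ^ b) - 1 ∧ height f = h} B ∧ ¬ p ∣ B) ∧
    IsGreatest {h : ℕ | ∃ f : ℤ[X], f ∣ X ^ (5 * 7 * 13 ^ 2) - 1 ∧ height f = h} 12822 ∧
    ¬ 5 ∣ 12822 :=
  ⟨⟨5, 7, 13, 2, 12822, by norm_num, by norm_num, by norm_num, by norm_num, by norm_num,
    le_rfl, isGreatest, by norm_num⟩, isGreatest, by norm_num⟩

end Pool.Agent.Results.MP_68ef1b_nt.NotDivisible
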